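import Pool.Agent.K3h56.E2.Stm

/-!
# Project E2, brick REG: the quotient of the regulators of a quadratic extension
-/

set_option autoImplicit false

open NumberField IsDedekindDomain Filter Topology

noncomputable section

namespace Pool.Agent.K3h36.E2

open Pool.Agent.K3h30.RS Pool.Agent.K3h56.E2 NumberField.InfinitePlace

theorem tau_tau {F K : Type} [Field F] [NumberField F] [Field K] [NumberField K] [Algebra F K]
    {τ : K ≃ₐ[F] K} (h : Quad F K τ) (x : K) : τ (τ x) = x := by
  classical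
  have h1 : Fintype.card (K ≃ₐ[F] K) ≤ 2 := h.deg ▸ AlgEquiv.card_le
  have h3 : τ ≠ 1 := h.ne
  have h2 : 2 ≤ Fintype.card (K ≃ₐ[F] K) := by
    have : 1 < Fintype.card (K ≃ₐ[F] K) := Fintype.one_lt_card_iff.mpr ⟨τ, 1, h3⟩
    omega
  have h4 : τ ^ 2 = 1 := by
    have := pow_card_eq_one (x := τ)
    rwa [le_antisymm h1 h2] at this
  have h5 := congrArg (fun σ : K ≃ₐ[F] K => σ x) h4
  rw [pow_two] at h5
  exact h5

theorem mult_comap_equiv {K : Type} [Field K] (f : K ≃+* K) (w : InfinitePlace K) :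
    (w.comap (f : K →+* K)).mult = w.mult := by
  classical
  rw [mult, mult]
  by_cases h : w.IsReal
  · rw [if_pos h, if_pos ((isReal_comap_iff f).mpr h)]
  · rw [if_neg h, if_neg (fun h' => h ((isReal_comap_iff f).mp h'))]

section

variable {F K : Type} [Field F] [NumberField F] [Field K] [NumberField K] [Algebra F K]
  (τ : K ≃ₐ[F] K)

/-- the unit `x / τ x` -/
def eps (x : (𝓞 K)ˣ) : (𝓞 K)ˣ :=
  x * (Units.map (RingOfIntegers.mapRingHom (τ : K →+* K) : 𝓞 K →* 𝓞 K) x)⁻¹

theorem coe_eps (x : (𝓞 K)ˣ) :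
    ((eps τ x : 𝓞 K) : K) = ((x : 𝓞 K) : K) / τ ((x : 𝓞 K) : K) := by
  have h1 : (((Units.map (RingOfIntegers.mapRingHom (τ : K →+* K) : 𝓞 K →* 𝓞 K) x : (𝓞 K)ˣ) :
      𝓞 K) : K) = τ ((x : 𝓞 K) : K) := rfl
  have h2 : ∀ y : (𝓞 K)ˣ, (((y⁻¹ : (𝓞 K)ˣ) : 𝓞 K) : K) = (((y : 𝓞 K) : K))⁻¹ := by
    intro y
    refine eq_inv_of_mul_eq_one_left ?_
    have h3 : ((y⁻¹ : (𝓞 K)ˣ) : 𝓞 K) * (y : 𝓞 K) = 1 := y.inv_mul
    have h4 := congrArg (algebraMap (𝓞 K) K) h3
    rw [map_mul, map_one] at h4
    exact h4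
  have h5 : ((eps τ x : 𝓞 K) : K) = ((x : 𝓞 K) : K) *
      ((((Units.map (RingOfIntegers.mapRingHom (τ : K →+* K) : 𝓞 K →* 𝓞 K) x)⁻¹ : (𝓞 K)ˣ) :
        𝓞 K) : K) := by
    rw [eps, Units.val_mul]
    exact map_mul (algebraMap (𝓞 K) K) _ _
  rw [h5, h2, h1, div_eq_mul_inv]

theorem tau_eps (h : Quad F K τ) (x : (𝓞 K)ˣ) :
    τ ((eps τ x : 𝓞 K) : K) = (((eps τ x : 𝓞 K) : K))⁻¹ := by
  rw [coe_eps, map_div₀, tau_tau h, inv_div]

end

theorem coe_ne_zero' {K : Type} [Field K] (x : (𝓞 K)ˣ) : ((x : 𝓞 K) : K) ≠ 0 :=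
  Units.coe_ne_zero x

/-- The matrix of the logarithms of suitable units `ε` is invertible (Dirichlet's argument). -/
theorem exists_eps {F K : Type} [Field F] [NumberField F] [Field K] [NumberField K] [Algebra F K]
    {τ : K ≃ₐ[F] K} (hτ : Quad F K τ) {ι : Type} [Fintype ι] [DecidableEq ι]
    (u : ι → InfinitePlace K) (hu : ∀ a, (u a).comap (τ : K →+* K) ≠ u a)
    (hinj : ∀ a b, (u a).comap (algebraMap F K) = (u b).comap (algebraMap F K) → a = b) :
    ∃ ε : ι → (𝓞 K)ˣ, (∀ b, τ ((ε b : 𝓞 K) : K) = (((ε b : 𝓞 K) : K))⁻¹) ∧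
      (Matrix.of fun b a : ι => Real.log (u a ((ε b : 𝓞 K) : K))).det ≠ 0 := by
  classical
  have hex : ∀ b : ι, ∃ x : (𝓞 K)ˣ, ∀ w : InfinitePlace K, w ≠ u b →
      Real.log (w ((x : 𝓞 K) : K)) < 0 :=
    fun b => Units.dirichletUnitTheorem.exists_unit K (u b)
  choose x hx using hex
  have hττ : ∀ w : InfinitePlace K, (w.comap (τ : K →+* K)).comap (algebraMap F K) =
      w.comap (algebraMap F K) := by
    intro w
    apply InfinitePlace.ext
    intro y
    rw [comap_apply, comap_apply, comap_apply]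
    congr 1
    exact τ.commutes y
  refine ⟨fun b => eps τ (x b), fun b => tau_eps τ hτ (x b), ?_⟩
  have hM : (Matrix.of fun b a : ι => ((u a).mult : ℝ) *
      (Matrix.of fun b a : ι => Real.log (u a ((eps τ (x b) : 𝓞 K) : K))) b a).det ≠ 0 := by
    refine det_ne_zero_of_sum_row_lt_diag fun b => ?_
    set g : InfinitePlace K → ℝ := fun w => w.mult * Real.log (w ((x b : 𝓞 K) : K)) with hg
    have hgneg : ∀ w, w ≠ u b → g w < 0 := by
      intro w hw
      rw [hg]
      exact mul_neg_of_pos_of_neg (by exact_mod_cast mult_pos) (hx b w hw)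
    have hgsum : ∑ w, g w = 0 := Units.sum_mult_mul_log (x b)
    have hent : ∀ a, ((u a).mult : ℝ) *
        Real.log (u a ((eps τ (x b) : 𝓞 K) : K)) =
        g (u a) - g ((u a).comap (τ : K →+* K)) := by
      intro a
      have h1 : u a ((x b : 𝓞 K) : K) ≠ 0 := (map_ne_zero _).mpr (coe_ne_zero' _)
      have h2 : u a (τ ((x b : 𝓞 K) : K)) ≠ 0 :=
        (map_ne_zero _).mpr ((map_ne_zero τ).mpr (coe_ne_zero' _))
      rw [coe_eps, map_div₀, Real.log_div h1 h2, hg]
      simp only
      have h3 : ((u a).comap (τ : K →+* K)).mult = (u a).mult :=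
        mult_comap_equiv (τ : K ≃+* K) (u a)
      rw [h3, comap_apply, mul_sub]
      rfl
    let f : ι ⊕ ι → InfinitePlace K := Sum.elim u fun a => (u a).comap (τ : K →+* K)
    have hf : Function.Injective f := by
      rintro (a | a) (a' | a') h
      · exact congrArg Sum.inl (hinj a a' (congrArg (fun w => w.comap (algebraMap F K)) h))
      · have h0 : u a = (u a').comap (τ : K →+* K) := h
        have h1 : a = a' := hinj a a' (by rw [h0, hττ])
        rw [← h1] at h0
        exact absurd h0.symm (hu a)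
      · have h0 : (u a).comap (τ : K →+* K) = u a' := h
        have h1 : a = a' := hinj a a' (by rw [← h0, hττ])
        rw [← h1] at h0
        exact absurd h0 (hu a)
      · have h0 : (u a).comap (τ : K →+* K) = (u a').comap (τ : K →+* K) := h
        have h1 := congrArg (fun w => w.comap (algebraMap F K)) h0
        simp only [hττ] at h1
        exact congrArg Sum.inr (hinj a a' h1)
    have hsum : 0 ≤ ∑ p, g (f p) := by
      have h1 : ∑ w ∈ Finset.univ.map ⟨f, hf⟩, (-g w) ≤ ∑ w, (-g w) := by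
        refine Finset.sum_le_sum_of_subset_of_nonneg (Finset.subset_univ _) fun w _ hw => ?_
        have h2 : w ≠ u b := by
          rintro rfl
          exact hw (Finset.mem_map.mpr ⟨Sum.inl b, Finset.mem_univ _, rfl⟩)
        have := hgneg w h2
        linarith
      rw [Finset.sum_neg_distrib, Finset.sum_neg_distrib, hgsum, Finset.sum_map] at h1
      change -(∑ p, g (f p)) ≤ -0 at h1
      linarith
    rw [Fintype.sum_sum_type, ← Finset.sum_add_distrib] at hsum
    change 0 ≤ ∑ a, (g (u a) + g ((u a).comap (τ : K →+* K))) at hsum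
    rw [← Finset.add_sum_erase _ _ (Finset.mem_univ b)] at hsum
    have hneg : g ((u b).comap (τ : K →+* K)) < 0 := hgneg _ (hu b)
    have hoff : ∑ a ∈ Finset.univ.erase b, ‖((u a).mult : ℝ) *
        Real.log (u a ((eps τ (x b) : 𝓞 K) : K))‖ ≤
        ∑ a ∈ Finset.univ.erase b, -(g (u a) + g ((u a).comap (τ : K →+* K))) := by
      refine Finset.sum_le_sum fun a ha => ?_
      rw [hent a, Real.norm_eq_abs, abs_le]
      have hab : a ≠ b := Finset.ne_of_mem_erase ha
      have h1 : g (u a) < 0 := hgneg _ fun h => hab (hinj a b (by rw [h]))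
      have h2 : g ((u a).comap (τ : K →+* K)) < 0 :=
        hgneg _ fun h => hab (hinj a b (by rw [← h, hττ]))
      constructor <;> linarith
    have hdiag : g (u b) - g ((u b).comap (τ : K →+* K)) ≤ ‖((u b).mult : ℝ) *
        Real.log (u b ((eps τ (x b) : 𝓞 K) : K))‖ := by
      rw [hent b]
      exact le_abs_self _
    rw [Finset.sum_neg_distrib] at hoff
    refine lt_of_le_of_lt hoff (lt_of_lt_of_le ?_ hdiag)
    linarith
  rw [Matrix.det_mul_row] at hM
  exact right_ne_zero_of_mul hM

/-- The determinant of the block matrix. -/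
theorem det_block {ι κ : Type} [Fintype ι] [DecidableEq ι] [Fintype κ] [DecidableEq κ]
    (E : Matrix ι ι ℝ) (G : Matrix κ κ ℝ) (va : ι → κ) (hva : Function.Injective va) :
    (Matrix.fromBlocks E (Matrix.of fun b v => -∑ a, E b a * (if va a = v then 1 else 0))
      (Matrix.of fun v a => G v (va a)) G).det = 2 ^ Fintype.card ι * (E.det * G.det) := by
  set Q : Matrix ι κ ℝ := Matrix.of fun a v => if va a = v then 1 else 0 with hQ
  have h1 : Matrix.fromBlocks E (Matrix.of fun b v => -∑ a, E b a * (if va a = v then 1 else 0))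
      (Matrix.of fun v a => G v (va a)) G =
      Matrix.fromBlocks E 0 0 G * Matrix.fromBlocks 1 (-Q) Q.transpose 1 := by
    rw [Matrix.fromBlocks_multiply]
    congr 1
    · rw [mul_one, Matrix.zero_mul, add_zero]
    · rw [Matrix.zero_mul, add_zero]
      ext b v
      rw [Matrix.mul_neg, Matrix.neg_apply, Matrix.mul_apply]
      rfl
    · rw [Matrix.zero_mul, zero_add]
      ext v a
      rw [Matrix.mul_apply]
      simp [hQ, Matrix.transpose_apply]
    · rw [Matrix.zero_mul, zero_add, mul_one]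
  have h2 : (1 : Matrix ι ι ℝ) + Q * Q.transpose = (2 : ℝ) • (1 : Matrix ι ι ℝ) := by
    ext a b
    rw [Matrix.add_apply, Matrix.mul_apply, Matrix.smul_apply]
    have h3 : ∑ j, Q a j * Q.transpose j b = (1 : Matrix ι ι ℝ) a b := by
      by_cases hab : a = b
      · subst hab
        simp [hQ, Matrix.transpose_apply]
      · rw [Matrix.one_apply_ne hab]
        refine Finset.sum_eq_zero fun j _ => ?_
        rw [Matrix.transpose_apply, hQ, Matrix.of_apply, Matrix.of_apply]
        by_cases h4 : va a = j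
        · have h5 : va b ≠ j := fun h5 => hab (hva (h4.trans h5.symm))
          rw [if_neg h5, mul_zero]
        · rw [if_neg h4, zero_mul]
    rw [h3, smul_eq_mul]
    ring
  rw [h1, Matrix.det_mul, Matrix.det_fromBlocks_zero₂₁, Matrix.det_fromBlocks_one₁₁,
    Matrix.mul_neg, sub_neg_eq_add, Matrix.det_one_add_mul_comm, h2, Matrix.det_smul,
    Matrix.det_one, mul_one, mul_comm]

theorem t_REG : S_REG := by
  classical
  intro F K _ _ _ _ _ τ hτ ι _ _ u hu hinj hcard
  obtain ⟨ε, hε, hEdet⟩ := exists_eps hτ u hu hinj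
  refine ⟨ε, ?_⟩
  have hττ : ∀ w : InfinitePlace K, (w.comap (τ : K →+* K)).comap (algebraMap F K) =
      w.comap (algebraMap F K) := by
    intro w
    apply InfinitePlace.ext
    intro y
    rw [comap_apply, comap_apply, comap_apply]
    congr 1
    exact τ.commutes y
  -- the places
  have hwvex : ∀ v : InfinitePlace F, ∃ w : InfinitePlace K, w.comap (algebraMap F K) = v ∧
      ∀ a, (u a).comap (algebraMap F K) = v → w = (u a).comap (τ : K →+* K) := by
    intro v
    by_cases h : ∃ a, (u a).comap (algebraMap F K) = v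
    · obtain ⟨a, ha⟩ := h
      refine ⟨(u a).comap (τ : K →+* K), by rw [hττ, ha], fun a' ha' => ?_⟩
      rw [hinj a a' (ha.trans ha'.symm)]
    · obtain ⟨w, hw⟩ := comap_surjective (K := K) v
      exact ⟨w, hw, fun a ha => absurd ⟨a, ha⟩ h⟩
  choose wv hwv1 hwv2 using hwvex
  set va : ι → InfinitePlace F := fun a => (u a).comap (algebraMap F K) with hva
  have hvainj : Function.Injective va := fun a b h => hinj a b h
  have hfinj : Function.Injective (Sum.elim u wv) := by
    rintro (a | v) (a' | v') h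
    · exact congrArg Sum.inl (hinj a a' (congrArg (fun w => w.comap (algebraMap F K)) h))
    · have h0 : u a = wv v' := h
      have h1 : va a = v' := by rw [hva]; simp only; rw [h0, hwv1]
      have h2 := hwv2 v' a h1
      rw [← h0] at h2
      exact absurd h2.symm (hu a)
    · have h0 : wv v = u a' := h
      have h1 : va a' = v := by rw [hva]; simp only; rw [← h0, hwv1]
      have h2 := hwv2 v a' h1
      rw [h0] at h2
      exact absurd h2.symm (hu a')
    · have h0 : wv v = wv v' := h
      have h1 : v = v' := by rw [← hwv1 v, ← hwv1 v', h0]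
      rw [h1]
  have hfbij : Function.Bijective (Sum.elim u wv) := by
    rw [Fintype.bijective_iff_injective_and_card]
    exact ⟨hfinj, by rw [Fintype.card_sum, hcard]⟩
  let e : ι ⊕ InfinitePlace F ≃ InfinitePlace K := Equiv.ofBijective _ hfbij
  have hel : ∀ a, e (Sum.inl a) = u a := fun a => rfl
  have her : ∀ v, e (Sum.inr v) = wv v := fun v => rfl
  -- the place `wv v`, `v` not in the image
  have hwvτ : ∀ v, (∀ a, va a ≠ v) → (wv v).comap (τ : K →+* K) = wv v := by
    intro v hv
    obtain ⟨p, hp⟩ := e.surjective ((wv v).comap (τ : K →+* K))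
    rcases p with a | v'
    · exfalso
      apply hv a
      rw [hva]
      simp only
      rw [← hel a, hp, hττ, hwv1]
    · have h1 : v' = v := by rw [← hwv1 v', ← her v', hp, hττ, hwv1]
      rw [← hp, her, h1]
  -- the families of units
  obtain ⟨v'⟩ : Nonempty (InfinitePlace F) := inferInstance
  let eF : {v : InfinitePlace F // v ≠ v'} ≃ Fin (Units.rank F) :=
    Fintype.equivOfCardEq <| by
      rw [Fintype.card_subtype_compl, Fintype.card_subtype_eq, Fintype.card_fin, Units.rank]
  let eK : {w : InfinitePlace K // w ≠ wv v'} ≃ Fin (Units.rank K) :=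
    Fintype.equivOfCardEq <| by
      rw [Fintype.card_subtype_compl, Fintype.card_subtype_eq, Fintype.card_fin, Units.rank]
  let U : ι ⊕ InfinitePlace F → (𝓞 K)ˣ := Sum.elim ε fun v => if h : v = v' then 1 else
    Units.map (algebraMap (𝓞 F) (𝓞 K) : 𝓞 F →* 𝓞 K) (Units.fundSystem F (eF ⟨v, h⟩))
  let fam : Fin (Units.rank K) → (𝓞 K)ˣ := fun i => U (e.symm (eK.symm i))
  have hfam : ∀ (p : ι ⊕ InfinitePlace F) (h : e p ≠ wv v'), fam (eK ⟨e p, h⟩) = U p := by
    intro p h
    change U (e.symm (eK.symm (eK ⟨e p, h⟩)).1) = U p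
    rw [Equiv.symm_apply_apply, Equiv.symm_apply_apply]
  have hK := Units.finrank_mul_regOfFamily_eq_det fam (wv v') eK
  have hF := Units.finrank_mul_regulator_eq_det F v' eF
  set E : Matrix ι ι ℝ := Matrix.of fun b a : ι => Real.log (u a ((ε b : 𝓞 K) : K)) with hE
  set G : Matrix (InfinitePlace F) (InfinitePlace F) ℝ := Matrix.of fun v v₂ =>
    if h : v = v' then 1 else Real.log (v₂ ((Units.fundSystem F (eF ⟨v, h⟩) : 𝓞 F) : F)) with hG
  have hmatF : (Matrix.of fun i w : InfinitePlace F =>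
      if h : i = v' then (w.mult : ℝ) else
        w.mult * Real.log (w ((Units.fundSystem F (eF ⟨i, h⟩) : 𝓞 F) : F))) =
      Matrix.of fun v v₂ => (v₂.mult : ℝ) * G v v₂ := by
    ext v v₂
    rw [Matrix.of_apply, Matrix.of_apply, hG, Matrix.of_apply]
    by_cases h : v = v'
    · rw [dif_pos h, dif_pos h, mul_one]
    · rw [dif_neg h, dif_neg h]
  rw [hmatF, Matrix.det_mul_row] at hF
  have hmatK : (Matrix.of fun i w : InfinitePlace K =>
      if h : i = wv v' then (w.mult : ℝ) else
        w.mult * Real.log (w ((fam (eK ⟨i, h⟩) : 𝓞 K) : K))).submatrix e e =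
      Matrix.of fun p q => ((e q).mult : ℝ) *
        (Matrix.fromBlocks E (Matrix.of fun b v => -∑ a, E b a * (if va a = v then 1 else 0))
          (Matrix.of fun v a => G v (va a)) G) p q := by
    ext p q
    rw [Matrix.submatrix_apply, Matrix.of_apply, Matrix.of_apply]
    rcases p with b | v
    · have h1 : e (Sum.inl b) ≠ wv v' := by
        rw [← her v']
        exact fun h => Sum.inl_ne_inr (e.injective h)
      rw [dif_neg h1, hfam]
      congr 1
      change Real.log ((e q) ((ε b : 𝓞 K) : K)) = _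
      rcases q with a | v
      · rfl
      · rw [Matrix.fromBlocks_apply₁₂, Matrix.of_apply, her]
        by_cases hv : ∃ a, va a = v
        · obtain ⟨a, ha⟩ := hv
          rw [hwv2 v a ha, comap_apply]
          change Real.log (u a (τ ((ε b : 𝓞 K) : K))) = _
          rw [hε b, map_inv₀, Real.log_inv, Finset.sum_eq_single a]
          · rw [if_pos ha, mul_one]
            rfl
          · intro a' _ ha'
            rw [if_neg fun h => ha' (hvainj (h.trans ha.symm)), mul_zero]
          · intro h; exact absurd (Finset.mem_univ _) h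
        · push Not at hv
          rw [Finset.sum_eq_zero fun a _ => by rw [if_neg (hv a), mul_zero], neg_zero]
          have h2 : wv v (τ ((ε b : 𝓞 K) : K)) = wv v ((ε b : 𝓞 K) : K) := by
            have h3 := congrArg (fun w : InfinitePlace K => w ((ε b : 𝓞 K) : K)) (hwvτ v hv)
            exact h3
          rw [hε b, map_inv₀] at h2
          have h4 := congrArg Real.log h2
          rw [Real.log_inv] at h4
          linarith
    · by_cases hv : v = v'
      · have h1 : e (Sum.inr v) = wv v' := by rw [her, hv]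
        rw [dif_pos h1]
        rcases q with a | v₂
        · rw [Matrix.fromBlocks_apply₂₁, Matrix.of_apply, hG, Matrix.of_apply, dif_pos hv, mul_one]
        · rw [Matrix.fromBlocks_apply₂₂, hG, Matrix.of_apply, dif_pos hv, mul_one]
      · have h1 : e (Sum.inr v) ≠ wv v' := by
          rw [← her v']
          exact fun h => hv (Sum.inr_injective (e.injective h))
        rw [dif_neg h1, hfam]
        congr 1
        have h2 : ((U (Sum.inr v) : 𝓞 K) : K) =
            algebraMap F K ((Units.fundSystem F (eF ⟨v, hv⟩) : 𝓞 F) : F) := by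
          change (((if h : v = v' then 1 else
            Units.map (algebraMap (𝓞 F) (𝓞 K) : 𝓞 F →* 𝓞 K)
              (Units.fundSystem F (eF ⟨v, h⟩)) : (𝓞 K)ˣ) : 𝓞 K) : K) = _
          rw [dif_neg hv]
          rfl
        rw [h2]
        rcases q with a | v₂
        · rw [Matrix.fromBlocks_apply₂₁, Matrix.of_apply, hG, Matrix.of_apply, dif_neg hv, hel,
            hva]
          simp only
          rw [comap_apply]
        · rw [Matrix.fromBlocks_apply₂₂, hG, Matrix.of_apply, dif_neg hv, her]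
          congr 1
          have h3 := congrArg (fun w : InfinitePlace F =>
            w ((Units.fundSystem F (eF ⟨v, hv⟩) : 𝓞 F) : F)) (hwv1 v₂)
          exact h3
  rw [← Matrix.det_submatrix_equiv_self e, hmatK, Matrix.det_mul_row, det_block E G va hvainj]
    at hK
  -- the result
  have hT : (Matrix.of fun a b : ι => Real.log (u a ((ε b : 𝓞 K) : K) ^ (u a).mult)).det =
      (∏ a, ((u a).mult : ℝ)) * E.det := by
    rw [← Matrix.det_transpose E, ← Matrix.det_mul_column]
    congr 1
    ext a b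
    rw [Matrix.of_apply, Real.log_pow]
    rfl
  have hidx := Units.regOfFamily_div_regulator fam
  set N : ℕ := (Subgroup.closure (Set.range fam) ⊔ Units.torsion K).index with hN
  have hRK := Units.regulator_ne_zero K
  have hRF := Units.regulator_ne_zero F
  have hGdet : G.det ≠ 0 := by
    intro h0
    rw [h0, mul_zero, abs_zero] at hF
    rcases mul_eq_zero.mp hF with h1 | h1
    · exact (Nat.cast_ne_zero.mpr (Module.finrank_pos (R := ℚ) (M := F)).ne') h1
    · exact hRF h1
  have hmK : (∏ q, ((e q).mult : ℝ)) ≠ 0 :=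
    Finset.prod_ne_zero_iff.mpr fun q _ => Nat.cast_ne_zero.mpr mult_ne_zero
  have hmF : (∏ v : InfinitePlace F, (v.mult : ℝ)) ≠ 0 :=
    Finset.prod_ne_zero_iff.mpr fun q _ => Nat.cast_ne_zero.mpr mult_ne_zero
  have hmU : (∏ a, ((u a).mult : ℝ)) ≠ 0 :=
    Finset.prod_ne_zero_iff.mpr fun q _ => Nat.cast_ne_zero.mpr mult_ne_zero
  have hEdet' : E.det ≠ 0 := hEdet
  have hfamne : Units.regOfFamily fam ≠ 0 := by
    intro h0
    rw [h0, mul_zero] at hK
    have h1 := abs_eq_zero.mp hK.symm
    exact mul_ne_zero hmK (mul_ne_zero (pow_ne_zero _ two_ne_zero)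
      (mul_ne_zero hEdet' hGdet)) h1
  have hN0 : (N : ℝ) ≠ 0 := by
    rw [← hidx]
    exact div_ne_zero hfamne hRK
  have hGabs : |G.det| ≠ 0 := abs_ne_zero.mpr hGdet
  have hnK : (Module.finrank ℚ K : ℝ) ≠ 0 :=
    Nat.cast_ne_zero.mpr (Module.finrank_pos (R := ℚ) (M := K)).ne'
  have hnF : (Module.finrank ℚ F : ℝ) ≠ 0 :=
    Nat.cast_ne_zero.mpr (Module.finrank_pos (R := ℚ) (M := F)).ne'
  obtain ⟨σ, hσ⟩ : ∃ σ : ℚ, |E.det| = (σ : ℝ) * E.det := by
    rcases le_or_gt 0 E.det with h | h
    · exact ⟨1, by rw [abs_of_nonneg h]; push_cast; ring⟩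
    · exact ⟨-1, by rw [abs_of_neg h]; push_cast; ring⟩
  have hmKabs : |∏ q, ((e q).mult : ℝ)| = ∏ q, ((e q).mult : ℝ) :=
    abs_of_nonneg (Finset.prod_nonneg fun q _ => Nat.cast_nonneg _)
  have hmFabs : |∏ v : InfinitePlace F, (v.mult : ℝ)| = ∏ v : InfinitePlace F, (v.mult : ℝ) :=
    abs_of_nonneg (Finset.prod_nonneg fun q _ => Nat.cast_nonneg _)
  rw [abs_mul, abs_mul, abs_mul, hmKabs, abs_of_pos (pow_pos two_pos _), hσ] at hK
  rw [abs_mul, hmFabs] at hF
  refine ⟨σ * ((∏ q, ((e q).mult : ℚ)) * 2 ^ Fintype.card ι * Module.finrank ℚ F) /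
    (Module.finrank ℚ K * (∏ v : InfinitePlace F, (v.mult : ℚ)) * N *
      ∏ a, ((u a).mult : ℚ)), hε, ?_⟩
  rw [hT]
  push_cast
  have e1 : Units.regOfFamily fam = (∏ q, ((e q).mult : ℝ)) * (2 ^ Fintype.card ι *
      ((σ : ℝ) * E.det * |G.det|)) / Module.finrank ℚ K := by
    rw [eq_div_iff hnK, ← hK]
    ring
  have e2 : Units.regulator F = (∏ v : InfinitePlace F, (v.mult : ℝ)) * |G.det| /
      Module.finrank ℚ F := by
    rw [eq_div_iff hnF, ← hF]
    ring
  have e3 : Units.regulator K = Units.regOfFamily fam / N := by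
    rw [eq_div_iff hN0, ← hidx]
    field_simp
  rw [e3, e1, e2]
  field_simp

end Pool.Agent.K3h36.E2
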